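import Pool.Agent.T2H35.MZ.ZeroOne

/-!
# Asymptotic directness implies directness; if directness fails, it fails on a large scale

Let `Z n` be the `ℚ`-span of the multiple zeta values of weight `n` (`Z 0 = ℚ`, `Z 1 = 0`).
Write `dimZ n` for its dimension, `dimSum N` for the dimension of `Z 0 + ... + Z N` and `total N` for
`dimZ 0 + ... + dimZ N`. So `dimSum N ≤ total N`, and Q1 says that `dimSum N = total N` for all `N`.

1. Q1 is equivalent to its asymptotic form: `dimSum N / total N → 1`.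

2. If `Z 0 + ... + Z p` is not direct, then for every `N ≥ p`
`dimSum N ≤ total N - total (N - p)`, the sum of the last `p` dimensions; so
`⌊2N/3⌋ + 1 ≤ dimSum N ≤ p * dimZ (N + 2)`: a single weight space contains, up to the constant `p`,
as much as all the spaces of weight at most `N` together, and its dimension grows at least linearly.

3. If `Z 0 + ... + Z p` is not direct and there are `m` algebraically independent elements of the
spaces `Z w`, then `dimZ n ≥ c n ^ m` and the defect `total N - dimSum N` is at least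
`c (N - p + 1) ^ (m + 1)`. One such element is `π ^ 2`, so the defect is either zero for all `N` or
grows at least quadratically.

Proof. The polynomials of degree at most `N` whose coefficient of `X ^ n` is in `Z n` form a space
of dimension `total N`, and evaluation at `1` maps it onto `Z 0 + ... + Z N`. A nontrivial relation
of weights at most `p` is such a polynomial `g` of degree at most `p` with `g(1) = 0`, and the
multiplication with `g` embeds the space for `N - p` in the kernel for `N`. For 1: `total` grows at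
most exponentially, so `total (N - p) ≥ 3 ^ (-p) total N` for infinitely many `N`. The bound
`⌊2N/3⌋ + 1` is the starting result `MP_2000e9_nt.SumDimension`.
-/

set_option autoImplicit false

open Filter Topology Module

namespace Pool.Agent.Results.MP_4d52ff_nt.AsymptoticDirectness

/-- The `ℚ`-span of the multiple zeta values of weight `j`. -/
noncomputable def Z (j : ℕ) : Submodule ℚ ℝ :=
  Submodule.span ℚ
    {x : ℝ | ∃ t : ℕ, ∃ k : Fin t → ℕ,
      (∀ i, 1 ≤ k i) ∧ (∀ h : 0 < t, 2 ≤ k ⟨0, h⟩) ∧ (∑ i, k i) = j ∧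
      x = ∑' n : {n : Fin t → ℕ // StrictAnti n ∧ ∀ i, 1 ≤ n i},
            ∏ i, (((n.1 i : ℕ) : ℝ) ^ (k i))⁻¹}

/-- The sum `Z_0 + ... + Z_p` is direct. -/
def IsDirect (p : ℕ) : Prop :=
  ∀ z : ℕ → ℝ, (∀ j ≤ p, z j ∈ Z j) → (∑ j ∈ Finset.range (p + 1), z j) = 0 → ∀ j ≤ p, z j = 0

/-- The dimension of the space of weight `n`. -/
noncomputable def dimZ (n : ℕ) : ℕ := finrank ℚ (Z n)

/-- The dimension of `Z_0 + ... + Z_N`. -/
noncomputable def dimSum (N : ℕ) : ℕ := finrank ℚ ↥(⨆ n ∈ Finset.range (N + 1), Z n)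

/-- The sum of the dimensions of `Z_0, ..., Z_N`. -/
noncomputable def total (N : ℕ) : ℕ := ∑ n ∈ Finset.range (N + 1), dimZ n

/-- The theorem, see the beginning of the file. -/
theorem result :
    -- 0
    (∀ n, FiniteDimensional ℚ (Z n)) ∧
    -- 1
    ((∀ p, IsDirect p) ↔ Tendsto (fun N => (dimSum N : ℝ) / total N) atTop (𝓝 1)) ∧
    -- 2
    (∀ p, ¬ IsDirect p → ∀ N, p ≤ N → dimSum N + total (N - p) ≤ total N ∧
      2 * N / 3 + 1 ≤ dimSum N ∧ dimSum N ≤ p * dimZ (N + 2)) ∧
    -- 3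
    (∀ p, ¬ IsDirect p → ∃ c : ℝ, 0 < c ∧ ∀ N, p ≤ N →
      (dimSum N : ℝ) + c * ((N : ℝ) - p + 1) ^ 2 ≤ total N) ∧
    ∀ p, ¬ IsDirect p → ∀ (m : ℕ) (z : Fin m → ℝ), (∀ i, ∃ w, z i ∈ Z w) →
      AlgebraicIndependent ℚ z → ∃ c : ℝ, 0 < c ∧ (∀ n : ℕ, 2 ≤ n → c * (n : ℝ) ^ m ≤ dimZ n) ∧
        ∀ N, p ≤ N → (dimSum N : ℝ) + c * ((N : ℝ) - p + 1) ^ (m + 1) ≤ total N := by
  refine ⟨fun n => Pool.Agent.T2H35.MZ.finite_Zs n, Pool.Agent.T2H35.MZ.zero_one,
    fun p hp N hN => ⟨Pool.Agent.T2H35.MZ.nd_ineq hp hN, Pool.Agent.T2H35.MZ.S_ge N,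
      Pool.Agent.T2H35.MZ.nd_le hp hN⟩, fun p hp => ?_, fun p hp m z hw hz => ?_⟩
  · obtain ⟨c, hc, -, h⟩ := Pool.Agent.T2H35.MZ.nd_defect hp Pool.Agent.T2H35.MZ.pi_alg_indep
      (fun _ => ⟨2, Pool.Agent.H447R2.MZ.pi_sq_mem⟩)
    refine ⟨c, hc, fun N hN => ?_⟩
    have h1 := h N hN
    refine h1.trans (le_of_eq ?_)
    unfold total
    push_cast
    rfl
  · obtain ⟨c, hc, h1, h⟩ := Pool.Agent.T2H35.MZ.nd_defect hp hz hw
    refine ⟨c, hc, h1, fun N hN => ?_⟩
    refine (h N hN).trans (le_of_eq ?_)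
    unfold total
    push_cast
    rfl

end Pool.Agent.Results.MP_4d52ff_nt.AsymptoticDirectness
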