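import Pool.Agent.T2H06.TW.Fin

/-!
# Coincidences between weights: numbers with several weights, and a zero-one law for relations

Let `Z w` be the `ℚ`-span of the multiple zeta values of weight `w` (as in `S16873`; `Z 0 = ℚ`, `Z 1 = 0`), and let `k`
be the subfield of `ℝ` generated by the ratios `x / y` of elements of the same `Z w` (`ratioField`). Say that a nonzero
real number `x` has the weight `w` if `x` is in `Z w`. If Q1 is true, then no number has two weights.

Theorem (unconditional).

1. There is `g ≥ 0` such that the differences of two weights of a nonzero number are exactly the multiples of `g`: there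
are `W` and a nonzero element of `Z W ∩ Z (W + d)` if and only if `g` divides `d`. Moreover `(ζ(3) / π ^ 2) ^ d` is in `k`
if and only if `g` divides `d`, so that `g` is the order of `ζ(3) / π ^ 2` modulo the multiplicative group of `k` (`0` if it
is infinite).

2. If a nonzero number has two different weights, that is `g ≠ 0`, then for every `L` there are numbers with the `L + 1`
weights `W, W + g, ..., W + L g`, for all large `W`, and many of them: they form (with `0`) a space of dimension at least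
`dim Z (W - W₀)` and at least `c W`, with some `c > 0`. So two different weight spaces have never a common nonzero element,
or any number of weight spaces have large intersections.

3. The same for relations. For every finite set `F` there is for no `W` a nontrivial relation `∑ z_f = 0`, `z_f` in
`Z (W + f)`, `f` in `F`, or for all large `W` the space of these relations has dimension at least `dim Z (W - W₀)` and at
least `c W`.

Proof. If `x` is in `Z W ∩ Z (W + d)` and `y` in `Z V ∩ Z (V + e)`, then `x y` has the weights `W + V`, `W + V + d`,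
`W + V + e` and `W + V + d + e`; so the differences form (with signs) a group. `x ^ L` has the weights `L W + j d`,
`j ≤ L`. Multiplication with a relation embeds `Z (W - W₁)` in the relations. The dimension of `Z n` grows at least linearly
if Q1 fails (`Pool/Agent/T2H35/MZ/NonDir`).
-/

set_option autoImplicit false

open Module

namespace Pool.Agent.Results.MP_4d52ff_nt.NumbersWithManyWeights

/-- The `ℚ`-span of the multiple zeta values of weight `j`. -/
noncomputable def Z (j : ℕ) : Submodule ℚ ℝ :=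
  Submodule.span ℚ
    {x : ℝ | ∃ t : ℕ, ∃ k : Fin t → ℕ,
      (∀ i, 1 ≤ k i) ∧ (∀ h : 0 < t, 2 ≤ k ⟨0, h⟩) ∧ (∑ i, k i) = j ∧
      x = ∑' n : {n : Fin t → ℕ // StrictAnti n ∧ ∀ i, 1 ≤ n i},
            ∏ i, (((n.1 i : ℕ) : ℝ) ^ (k i))⁻¹}

/-- The field generated by the ratios of elements of equal weight. -/
noncomputable def ratioField : Subfield ℝ :=
  Subfield.closure {r | ∃ w, ∃ x ∈ Z w, ∃ y ∈ Z w, r = x / y}

/-- The numbers with the `L + 1` weights `W, W + g, ..., W + L g`. -/
noncomputable def manyWeights (g L W : ℕ) : Submodule ℚ ℝ :=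
  ⨅ j ∈ Finset.range (L + 1), Z (W + j * g)

/-- The relations `∑ z_f = 0`, `z_f` in `Z (W + f)`, `f` in `F` (and `z_f = 0` for `f` not in `F`). -/
def relations (F : Finset ℕ) (W : ℕ) : Submodule ℚ (ℕ → ℝ) where
  carrier := {z | (∀ f ∈ F, z f ∈ Z (W + f)) ∧ (∀ f, f ∉ F → z f = 0) ∧ ∑ f ∈ F, z f = 0}
  add_mem' := by
    rintro a b ⟨ha, ha', ha''⟩ ⟨hb, hb', hb''⟩
    refine ⟨fun f hf => (Z _).add_mem (ha f hf) (hb f hf), fun f hf => ?_, ?_⟩
    · rw [Pi.add_apply, ha' f hf, hb' f hf, add_zero]
    · simp only [Pi.add_apply, Finset.sum_add_distrib, ha'', hb'', add_zero]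
  zero_mem' := ⟨fun f _ => (Z _).zero_mem, fun f _ => rfl, by simp⟩
  smul_mem' := by
    rintro c a ⟨ha, ha', ha''⟩
    refine ⟨fun f hf => (Z _).smul_mem c (ha f hf), fun f hf => ?_, ?_⟩
    · rw [Pi.smul_apply, ha' f hf, smul_zero]
    · simp only [Pi.smul_apply, ← Finset.smul_sum, ha'', smul_zero]

/-- The theorem, see the beginning of the file. -/
theorem result :
    -- 1
    (∃ g : ℕ,
      (∀ d : ℕ, (∃ W : ℕ, ∃ x ∈ Z W, x ∈ Z (W + d) ∧ x ≠ 0) ↔ g ∣ d) ∧
      (∀ d : ℕ, ((∑' n : ℕ, (1 : ℝ) / ((n : ℝ) + 1) ^ 3) / Real.pi ^ 2) ^ d ∈ ratioField ↔ g ∣ d) ∧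
    -- 2
      (g ≠ 0 → ∀ L : ℕ, ∃ (W₀ : ℕ) (c : ℝ), 0 < c ∧ ∀ W : ℕ, W₀ ≤ W →
        finrank ℚ (Z (W - W₀)) ≤ finrank ℚ (manyWeights g L W) ∧
        c * W ≤ finrank ℚ (manyWeights g L W))) ∧
    -- 3
    ∀ F : Finset ℕ, (∀ W : ℕ, relations F W = ⊥) ∨
      ∃ (W₀ : ℕ) (c : ℝ), 0 < c ∧ ∀ W : ℕ, W₀ ≤ W →
        finrank ℚ (Z (W - W₀)) ≤ finrank ℚ (relations F W) ∧ c * W ≤ finrank ℚ (relations F W) := by
  obtain ⟨g, hg⟩ := Pool.Agent.T2H06.TW.exists_gen
  refine ⟨⟨g, hg, fun d => (Pool.Agent.T2H06.TW.diff_iff_ratio d).symm.trans (hg d), fun hg0 L => ?_⟩,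
    fun F => Pool.Agent.T2H06.TW.zero_one_law' F⟩
  exact Pool.Agent.T2H06.TW.many_growth' (Nat.one_le_iff_ne_zero.2 hg0) ((hg g).2 dvd_rfl) L

end Pool.Agent.Results.MP_4d52ff_nt.NumbersWithManyWeights
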