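import Pool.Agent.T2H64.ZL.One

/-!
# All relations between multiple zeta values of different weights come from a single one

Let `Z w` be the `ℚ`-span of the multiple zeta values of weight `w` (as in `S16873`; `Z 0 = ℚ`, `Z 1 = 0`). Let `k` be
the subfield of `ℝ` generated by the ratios `x / y` of elements of equal weight (`ratioField`), let `K` be the field
generated by all multiple zeta values (`allField`), and let `d` be the degree of `K` over `k`, finite or infinite. A
family `(g_w)` with `g_w` in `Z w`, almost all zero, is written as the polynomial `G = ∑ g_w X ^ w`; its sum is `G(1)`,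
and it is called a relation if `G(1) = 0`.

Theorem (unconditional).

1. If `m ≤ d`, then `Z n + Z (n + 1) + ... + Z (n + m - 1)` is direct for all `n`. If `m > d`, then it is not direct
for all large `n`.

2. There is a relation `R` such that every relation `G` is a multiple of `R` up to a homogeneous factor:
`y X ^ V G = R H` with `0 ≠ y` in `Z V` and a family `H`. (Conversely such an equation implies `G(1) = 0`.) We have
`R = 0` if and only if Q1 holds; otherwise `d` is finite, and `R` extends over exactly `d + 1` consecutive weights, that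
is `deg R - ord R = d`.

So Q1 is equivalent to `d = ∞`; and if Q1 fails, all relations between different weights follow from a single one, and
the sum of up to `d` consecutive weight spaces is still direct.

Proof. Let `τ = ζ(3) / π²`. For `z` in `Z w` the number `z / τ ^ w = z π^(2w) / ζ(3)^w` is in `k`, and so the families
are the polynomials `P(τ X)` with certain `P` in `k[X]`; every `P` in `k[X]` is obtained up to a homogeneous factor
(common denominators). `G = P(τ X)` is a relation if and only if `P(τ) = 0`, that is if and only if the minimal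
polynomial of `τ` over `k` divides `P`. Finally `K = k(τ)`.
-/

set_option autoImplicit false

open Polynomial Module

namespace Pool.Agent.Results.MP_4d52ff_nt.OneRelation

/-- The `ℚ`-span of the multiple zeta values of weight `j`. -/
noncomputable def Z (j : ℕ) : Submodule ℚ ℝ :=
  Submodule.span ℚ
    {x : ℝ | ∃ t : ℕ, ∃ k : Fin t → ℕ,
      (∀ i, 1 ≤ k i) ∧ (∀ h : 0 < t, 2 ≤ k ⟨0, h⟩) ∧ (∑ i, k i) = j ∧
      x = ∑' n : {n : Fin t → ℕ // StrictAnti n ∧ ∀ i, 1 ≤ n i},
            ∏ i, (((n.1 i : ℕ) : ℝ) ^ (k i))⁻¹}

/-- The sum `Z_0 + ... + Z_p` is direct. -/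
def IsDirect (p : ℕ) : Prop :=
  ∀ z : ℕ → ℝ, (∀ j ≤ p, z j ∈ Z j) → (∑ j ∈ Finset.range (p + 1), z j) = 0 → ∀ j ≤ p, z j = 0

/-- The sum of the `Z_j`, `j` in the finite set `F`, is direct. -/
def IsDirectOn (F : Finset ℕ) : Prop :=
  ∀ z : ℕ → ℝ, (∀ j ∈ F, z j ∈ Z j) → (∑ j ∈ F, z j) = 0 → ∀ j ∈ F, z j = 0

/-- The field `k` generated by the ratios of elements of equal weight. -/
noncomputable def ratioField : Subfield ℝ :=
  Subfield.closure {r | ∃ w, ∃ x ∈ Z w, ∃ y ∈ Z w, r = x / y}

/-- The field `K` generated by all multiple zeta values, as an extension of `k`. -/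
noncomputable def allField : IntermediateField ratioField ℝ :=
  IntermediateField.adjoin ratioField {z : ℝ | ∃ w, z ∈ Z w}

/-- The coefficient of `X ^ w` is in `Z w`, for all `w`. -/
def IsFormal (G : ℝ[X]) : Prop := ∀ w, G.coeff w ∈ Z w

/-- The theorem, see the beginning of the file. -/
theorem result :
    -- 1
    (∀ m : ℕ, (m : Cardinal) ≤ Module.rank ratioField allField →
      ∀ n, IsDirectOn (Finset.Ico n (n + m))) ∧
    (∀ m : ℕ, ¬ (m : Cardinal) ≤ Module.rank ratioField allField →
      ∀ᶠ n in Filter.atTop, ¬ IsDirectOn (Finset.Ico n (n + m))) ∧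
    -- 2
    (∃ R : ℝ[X], IsFormal R ∧ R.eval 1 = 0 ∧
      (∀ G : ℝ[X], IsFormal G → G.eval 1 = 0 → ∃ V : ℕ, ∃ y ∈ Z V, y ≠ 0 ∧
        ∃ H : ℝ[X], IsFormal H ∧ C y * X ^ V * G = R * H) ∧
      (R = 0 ↔ ∀ p, IsDirect p) ∧
      (R ≠ 0 → FiniteDimensional ratioField allField ∧
        R.natDegree - R.natTrailingDegree = finrank ratioField allField)) := by
  obtain ⟨R, h1, h2, h3, h4, h5, h6, h7⟩ := Pool.Agent.T2H64.ZL.One.final
  exact ⟨h6, h7, R, h1, h2, h3, h4, h5⟩

end Pool.Agent.Results.MP_4d52ff_nt.OneRelation
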