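import Pool.Agent.T2H51.RZ.Fin

/-!
# Multiple zeta values of randomly perturbed integers: the sum of the weight spaces is direct almost surely

For a sequence `x` and a list `l = [a_1, ..., a_t]` let `V x l 0` be the sum of `x_{n_1}^{a_1} ... x_{n_t}^{a_t}` over
`0 ≤ n_1 < ... < n_t`, so that `x_n = 1/(n+1)` gives the multiple zeta value `ζ(a_t, ..., a_1)`; `l` is admissible if
`a_i ≥ 1` and `a_t ≥ 2`. `Z x j` is the rational span of the values of weight `j`.

Replace the positive integers `n + 1`, `n` in an arbitrary infinite set `R` (as sparse as we like), by `n + 1 + ξ_n` with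
independent random `ξ_n`, `0 < ξ_n < h_n` (as small as we like), whose laws have no atoms, and keep all the other
integers. Then, almost surely, Q1 holds: if `z_j ∈ Z x j` and `z_0 + ... + z_p = 0`, then all `z_j = 0`. In fact all the
values, of all weights and depths, are linearly independent over every given countable subfield of `ℝ` (for example that
of the real algebraic numbers).

Proof. Let `c ≠ 0` be a finite family of real coefficients, `F(x)` the sum of the `c_l V x l 0`. If `x_0` is a constant,
then `F(x) = F'(x_1, x_2, ...)` with coefficients `c'`, which agree with `c` on the lists of maximal length, so `c' ≠ 0`.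
If the law of `x_0` has no atoms, then `F(x)` is a polynomial in `x_0`, and its coefficient of `x_0^j`, `j ≥ 1`, is the
combination of `V (x_1, x_2, ...) l 0` with coefficients `c_{j :: l}`, of smaller depth, which is not zero almost surely by
induction.
-/

set_option autoImplicit false

open MeasureTheory ProbabilityTheory Finset
open Pool.Agent.T2H51.RZ

namespace Pool.Agent.Results.MP_4d52ff_nt.RandomIntegers

/-- For independent random variables `X n` with `|X n| ≤ A/(n+1)`, `X n` without atoms for `n` in an infinite set `R` and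
constant for the other `n`: almost surely the sum of the weight spaces of the multiple zeta values of the sequence is
direct, and all admissible values are linearly independent over any given countable subfield. Such `X` exist with
`X n = 1/(n+1+ξ_n)`, `0 < ξ_n < h n`, `n ∈ R`, `X n = 1/(n+1)`, `n ∉ R`, for all infinite `R` and all positive `h`. -/
theorem result :
    (∀ (A : ℝ), 1 ≤ A → ∀ (Ω : Type) [MeasurableSpace Ω] (P : Measure Ω) [IsProbabilityMeasure P] (R : Set ℕ)
      (X : ℕ → Ω → ℝ), Model P A R X →
      (∀ᵐ ω ∂P, ∀ (p : ℕ) (z : ℕ → ℝ), (∀ j ≤ p, z j ∈ Z (fun n => X n ω) j) →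
        ∑ j ∈ range (p + 1), z j = 0 → ∀ j ≤ p, z j = 0) ∧
      ∀ (K : Subfield ℝ) [Countable K],
        ∀ᵐ ω ∂P, LinearIndependent K (fun l : {l : List ℕ // Adm l} => V (fun n => X n ω) l.1 0)) ∧
    ∀ (R : Set ℕ) (h : ℕ → ℝ), R.Infinite → (∀ n, 0 < h n) →
      ∃ (Ω : Type) (_ : MeasurableSpace Ω) (P : Measure Ω) (_ : IsProbabilityMeasure P) (X : ℕ → Ω → ℝ),
        Model P 1 R X ∧ (∀ n ∈ R, ∀ ω, ∃ ξ : ℝ, 0 < ξ ∧ ξ < h n ∧ X n ω = 1 / ((n : ℝ) + 1 + ξ)) ∧
        ∀ n, n ∉ R → ∀ ω, X n ω = 1 / ((n : ℝ) + 1) := by
  refine ⟨?_, fun R h hR hh => exists_model R hR h hh⟩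
  intro A hA Ω _ P _ R X hX
  refine ⟨?_, fun K _ => linInd hA R X hX K⟩
  have hc : Countable (⊥ : Subfield ℝ) := by
    have h1 : (⊥ : Subfield ℝ) = (algebraMap ℚ ℝ).fieldRange := by
      refine le_antisymm bot_le ?_
      rintro _ ⟨q, rfl⟩
      rw [eq_ratCast]
      exact SubfieldClass.ratCast_mem _ q
    rw [h1]
    exact (Set.countable_range (algebraMap ℚ ℝ)).to_subtype
  filter_upwards [linInd hA R X hX ⊥] with ω hω
  exact direct (toRat hω)

end Pool.Agent.Results.MP_4d52ff_nt.RandomIntegers
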